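import Mathlib

/-!
# Greedy list colouring of a finite graph, with precoloured vertices
-/

set_option autoImplicit false

namespace Pool.Agent.X211.LX

/-- Greedy colouring: the points of `S` are precoloured, every other point `x` has a list of more
colours than it has neighbours. -/
theorem greedy_list {X : Type} [Fintype X] (A : SimpleGraph X) (L : X → Finset ℕ) (S : Set X)
    (c₀ : X → ℕ) (h0 : ∀ x ∈ S, ∀ y ∈ S, A.Adj x y → c₀ x ≠ c₀ y)
    (hL : ∀ x, x ∉ S → (A.neighborSet x).ncard < (L x).card) :
    ∃ c : X → ℕ, (∀ x ∈ S, c x = c₀ x) ∧ (∀ x, x ∉ S → c x ∈ L x) ∧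
      ∀ x y, A.Adj x y → c x ≠ c y := by
  classical
  have key : ∀ T : Finset X, ∃ c : X → ℕ, (∀ x ∈ S, c x = c₀ x) ∧
      (∀ x, x ∉ S → x ∈ T → c x ∈ L x) ∧
      ∀ x y, (x ∈ S ∨ x ∈ T) → (y ∈ S ∨ y ∈ T) → A.Adj x y → c x ≠ c y := by
    intro T
    induction T using Finset.induction_on with
    | empty =>
      refine ⟨c₀, fun _ _ => rfl, fun x _ h => absurd h (Finset.notMem_empty x), ?_⟩
      intro x y hx hy hxy
      rcases hx with hx | hx
      · rcases hy with hy | hy
        · exact h0 x hx y hy hxy
        · exact absurd hy (Finset.notMem_empty y)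
      · exact absurd hx (Finset.notMem_empty x)
    | insert z T hz ih =>
      obtain ⟨c, hc1, hc2, hc3⟩ := ih
      by_cases hzS : z ∈ S
      · refine ⟨c, hc1, ?_, ?_⟩
        · intro x hx hxT
          rcases Finset.mem_insert.1 hxT with h | h
          · subst h
            exact absurd hzS hx
          · exact hc2 x hx h
        · intro x y hx hy hxy
          have e : ∀ x, (x ∈ S ∨ x ∈ insert z T) → (x ∈ S ∨ x ∈ T) := by
            intro x hx
            rcases hx with h | h
            · exact Or.inl h
            · rcases Finset.mem_insert.1 h with h | h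
              · subst h
                exact Or.inl hzS
              · exact Or.inr h
          exact hc3 x y (e x hx) (e y hy) hxy
      · have hcard : ((A.neighborSet z).toFinset.image c).card < (L z).card := by
          refine lt_of_le_of_lt Finset.card_image_le ?_
          rw [← Set.ncard_eq_toFinset_card']
          exact hL z hzS
        obtain ⟨a, haL, haN⟩ := Finset.exists_mem_notMem_of_card_lt_card hcard
        have hne : ∀ y, A.Adj z y → a ≠ c y := by
          intro y hy h
          apply haN
          rw [Finset.mem_image]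
          exact ⟨y, by rw [Set.mem_toFinset]; exact hy, h.symm⟩
        refine ⟨fun x => if x = z then a else c x, ?_, ?_, ?_⟩
        · intro x hx
          have : x ≠ z := fun h => hzS (h ▸ hx)
          simp only [if_neg this]
          exact hc1 x hx
        · intro x hx hxT
          by_cases h : x = z
          · subst h
            simpa using haL
          · simp only [if_neg h]
            exact hc2 x hx ((Finset.mem_insert.1 hxT).resolve_left h)
        · intro x y hx hy hxy
          by_cases h1 : x = z
          · subst h1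
            have h2 : y ≠ x := fun h => (A.ne_of_adj hxy) h.symm
            simp only [if_neg h2, if_true]
            exact hne y hxy
          · by_cases h2 : y = z
            · subst h2
              simp only [if_neg h1, if_true]
              exact (hne x hxy.symm).symm
            · simp only [if_neg h1, if_neg h2]
              refine hc3 x y ?_ ?_ hxy
              · rcases hx with h | h
                · exact Or.inl h
                · exact Or.inr ((Finset.mem_insert.1 h).resolve_left h1)
              · rcases hy with h | h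
                · exact Or.inl h
                · exact Or.inr ((Finset.mem_insert.1 h).resolve_left h2)
  obtain ⟨c, hc1, hc2, hc3⟩ := key Finset.univ
  exact ⟨c, hc1, fun x hx => hc2 x hx (Finset.mem_univ x),
    fun x y hxy => hc3 x y (Or.inr (Finset.mem_univ x)) (Or.inr (Finset.mem_univ y)) hxy⟩

/-- Greedy edge colouring with palette `[a, N)` and forbidden sets. -/
theorem edge_greedy {V : Type} [Fintype V] (C : SimpleGraph V) (w s a N : ℕ)
    (F : Sym2 V → Finset ℕ) (hC : ∀ v, (C.neighborSet v).ncard ≤ w)
    (hF : ∀ u v, C.Adj u v → (F s(u, v)).card ≤ s) (hN : a + 2 * w + s < N) :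
    ∃ f : Sym2 V → ℕ, (∀ u v, C.Adj u v → a ≤ f s(u, v) ∧ f s(u, v) < N ∧
        f s(u, v) ∉ F s(u, v)) ∧
      ∀ u v v', C.Adj u v → C.Adj u v' → v ≠ v' → f s(u, v) ≠ f s(u, v') := by
  classical
  let A : SimpleGraph (Sym2 V) :=
    { Adj := fun e g => e ≠ g ∧ ∃ x y z, C.Adj x y ∧ C.Adj x z ∧ e = s(x, y) ∧ g = s(x, z)
      symm := by
        constructor
        rintro e g ⟨h, x, y, z, h1, h2, h3, h4⟩
        exact ⟨h.symm, x, z, y, h2, h1, h4, h3⟩
      loopless := ⟨fun e h => h.1 rfl⟩ }
  obtain ⟨f, -, hf1, hf2⟩ := greedy_list A (fun e => if e ∈ C.edgeSet then Finset.Ico a N \ F e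
      else Finset.range 1) ∅ (fun _ => 0) (fun x hx => absurd hx (Set.notMem_empty x)) (by
    intro e _
    by_cases he : e ∈ C.edgeSet
    · rw [if_pos he]
      induction e using Sym2.ind with
      | _ u v =>
        rw [SimpleGraph.mem_edgeSet] at he
        have h1 : A.neighborSet s(u, v) ⊆ ((fun z => s(u, z)) '' C.neighborSet u) ∪
            ((fun z => s(v, z)) '' C.neighborSet v) := by
          rintro g ⟨-, x, y, z, hxy, hxz, h3, h4⟩
          rw [Sym2.eq_iff] at h3
          rcases h3 with ⟨h3, h5⟩ | ⟨h3, h5⟩
          · subst h3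
            exact Or.inl ⟨z, hxz, h4.symm⟩
          · subst h5
            exact Or.inr ⟨z, hxz, h4.symm⟩
        have h2 : (A.neighborSet s(u, v)).ncard ≤ w + w :=
          (Set.ncard_le_ncard h1 (Set.toFinite _)).trans ((Set.ncard_union_le _ _).trans
            (Nat.add_le_add ((Set.ncard_image_le (Set.toFinite _)).trans (hC u))
              ((Set.ncard_image_le (Set.toFinite _)).trans (hC v))))
        have h3 := Finset.le_card_sdiff (F s(u, v)) (Finset.Ico a N)
        rw [Nat.card_Ico] at h3
        have h4 := hF u v he
        omega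
    · rw [if_neg he]
      have h1 : A.neighborSet e = ∅ := by
        ext g
        constructor
        · rintro ⟨-, x, y, z, hxy, hxz, h3, h4⟩
          exact absurd (h3 ▸ (C.mem_edgeSet.2 hxy)) he
        · exact fun h => absurd h (Set.notMem_empty g)
      rw [h1, Set.ncard_empty]
      simp)
  refine ⟨f, ?_, ?_⟩
  · intro u v h
    have h1 := hf1 s(u, v) (Set.notMem_empty _)
    rw [if_pos (C.mem_edgeSet.2 h), Finset.mem_sdiff, Finset.mem_Ico] at h1
    exact ⟨h1.1.1, h1.1.2, h1.2⟩
  · intro u v v' h1 h2 h3
    refine hf2 _ _ ⟨?_, u, v, v', h1, h2, rfl, rfl⟩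
    intro h
    rw [Sym2.eq_iff] at h
    rcases h with ⟨-, h⟩ | ⟨h, h'⟩
    · exact h3 h
    · exact h3 (h'.trans h)

end Pool.Agent.X211.LX
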