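import Pool.Agent.X211.LX.Edge0
import Pool.Agent.X211.LX.Greedy

/-!
# Edge colourings with `D + O(q log D)` colours that avoid `q` forbidden colours at every edge
-/

set_option autoImplicit false

namespace Pool.Agent.X211.LX

open Finset Pool.Agent.W842.KF

theorem enum (A : Finset ℕ) (q : ℕ) (h : A.card ≤ q) :
    ∃ g : Fin q → ℕ, ∀ x ∈ A, ∃ i, g i = x := by
  classical
  refine ⟨fun i => if hi : (i : ℕ) < A.card then (A.equivFin.symm ⟨i, hi⟩ : ℕ) else 0, ?_⟩
  intro x hx
  refine ⟨⟨(A.equivFin ⟨x, hx⟩ : ℕ), lt_of_lt_of_le (A.equivFin ⟨x, hx⟩).2 h⟩, ?_⟩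
  simp

theorem card_nb {V : Type} [Fintype V] (H : SimpleGraph V) (v : V) :
    (nb H v).card = (H.neighborSet v).ncard := by
  classical
  rw [← Set.ncard_coe_finset]
  congr 1
  ext u
  rw [mem_coe, mem_nb]
  rfl

/-- the conflict graph -/
def cf {V : Type} (G R : SimpleGraph V) (c : V → V → ℕ) (T : V → Finset ℕ)
    (F : Sym2 V → Finset ℕ) (hc : ∀ u v, c u v = c v u) : SimpleGraph V where
  Adj u v := R.Adj u v ∨ ((G \ R).Adj u v ∧
    (c u v ∈ F s(u, v) ∨ c u v ∈ T v ∨ c u v ∈ T u))
  symm := by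
    constructor
    rintro u v (h1 | ⟨h1, h2⟩)
    · exact Or.inl h1.symm
    · refine Or.inr ⟨h1.symm, ?_⟩
      rw [hc v u, Sym2.eq_swap]
      rcases h2 with h2 | h2 | h2
      · exact Or.inl h2
      · exact Or.inr (Or.inr h2)
      · exact Or.inr (Or.inl h2)
  loopless := by
    constructor
    rintro u (h | h)
    · exact R.loopless.irrefl u h
    · exact (G \ R).loopless.irrefl u h.1

open Classical in
/-- all forbidden colours of an edge -/
noncomputable def allF {V : Type} [Fintype V] (T : V → Finset ℕ) (F : Sym2 V → Finset ℕ)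
    (e : Sym2 V) : Finset ℕ :=
  F e ∪ (univ.filter fun v => v ∈ e).biUnion T

theorem mem_allF {V : Type} [Fintype V] {T : V → Finset ℕ} {F : Sym2 V → Finset ℕ}
    {u v : V} {x : ℕ} : x ∈ allF T F s(u, v) ↔ x ∈ F s(u, v) ∨ x ∈ T u ∨ x ∈ T v := by
  classical
  unfold allF
  simp [or_and_right, exists_or]

theorem card_allF {V : Type} [Fintype V] {T : V → Finset ℕ} {F : Sym2 V → Finset ℕ}
    {r s : ℕ} (hT : ∀ v, (T v).card ≤ r) {u v : V} (hF : (F s(u, v)).card ≤ s) :
    (allF T F s(u, v)).card ≤ s + 2 * r := by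
  classical
  have h : allF T F s(u, v) ⊆ F s(u, v) ∪ (T u ∪ T v) := by
    intro x hx
    rw [mem_allF] at hx
    simp only [mem_union]
    exact hx
  refine (card_le_card h).trans ((card_union_le _ _).trans ?_)
  have h2 := card_union_le (T u) (T v)
  have h3 := hT u
  have h4 := hT v
  omega

/-- **Edge colouring with forbidden colours.**  Every graph with all degrees at most `D` has a
proper edge colouring with `N` colours in which the colour of every edge avoids the forbidden
colours of the edge (at most `s`) and those of its two ends (at most `r` each), if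
`N ≥ D + 1 + 334 (r + s) log (D + 1)`. -/
theorem forb {V : Type} [Fintype V] (G : SimpleGraph V) (D r s N : ℕ)
    (hD : ∀ v, (G.neighborSet v).ncard ≤ D) (T : V → Finset ℕ) (hT : ∀ v, (T v).card ≤ r)
    (F : Sym2 V → Finset ℕ) (hF : ∀ u v, G.Adj u v → (F s(u, v)).card ≤ s) (hrs : 1 ≤ r + s)
    (hN : (D : ℝ) + 1 + 334 * (r + s) * Real.log (D + 1) ≤ N) :
    ∃ f : Sym2 V → ℕ, (∀ u v, G.Adj u v → f s(u, v) < N ∧ f s(u, v) ∉ F s(u, v) ∧
        f s(u, v) ∉ T u) ∧
      ∀ u v v', G.Adj u v → G.Adj u v' → v ≠ v' → f s(u, v) ≠ f s(u, v') := by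
  classical
  have hrs' : (1 : ℝ) ≤ (r : ℝ) + s := by exact_mod_cast hrs
  rcases Nat.eq_zero_or_pos D with h0 | hpos
  · -- no edges
    have hno : ∀ u v, ¬ G.Adj u v := by
      intro u v h
      have h1 : 0 < (G.neighborSet u).ncard := Set.ncard_pos (Set.toFinite _) |>.2 ⟨v, h⟩
      have h2 := hD u
      omega
    exact ⟨fun _ => 0, fun u v h => absurd h (hno u v), fun u v v' h => absurd h (hno u v)⟩
  rcases Nat.lt_or_ge (D + 1) 64 with h64 | h64
  · -- small degrees: greedy
    have hl : Real.log 2 ≤ Real.log ((D : ℝ) + 1) := by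
      apply Real.log_le_log (by norm_num)
      have : (1 : ℝ) ≤ D := by exact_mod_cast hpos
      linarith
    have hl2 := Real.log_two_gt_d9
    have h1 : (D : ℝ) + 1 + 230 * (r + s) ≤ N := by
      refine le_trans ?_ hN
      have : 230 * ((r : ℝ) + s) ≤ 334 * (r + s) * Real.log (D + 1) := by
        have h2 : (230 : ℝ) ≤ 334 * Real.log (D + 1) := by linarith
        nlinarith
      linarith
    have h2 : D + 1 + 230 * (r + s) ≤ N := by exact_mod_cast h1
    obtain ⟨f, hf1, hf2⟩ := edge_greedy G D (s + 2 * r) 0 N (allF T F) hD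
      (fun u v h => card_allF hT (hF u v h)) (by omega)
    refine ⟨f, ?_, hf2⟩
    intro u v h
    obtain ⟨-, h3, h4⟩ := hf1 u v h
    rw [mem_allF] at h4
    push Not at h4
    exact ⟨h3, h4.1, h4.2.1⟩
  · -- large degrees
    obtain ⟨c, hc1, hc2, hc3⟩ := Pool.Agent.H238R2.HY.vizing G D (fun v => by
      rw [← SimpleGraph.card_neighborSet_eq_degree, ← Nat.card_eq_fintype_card]
      exact hD v)
    set q := r + s with hq
    have hex : ∀ v u, ∃ g : Fin q → ℕ, G.Adj v u → ∀ x ∈ F s(v, u) ∪ T u, ∃ i, g i = x := by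
      intro v u
      by_cases h : G.Adj v u
      · have h1 : (F s(v, u) ∪ T u).card ≤ q := by
          refine (card_union_le _ _).trans ?_
          have h2 := hF v u h
          have h3 := hT u
          omega
        obtain ⟨g, hg⟩ := enum _ q h1
        exact ⟨g, fun _ => hg⟩
      · exact ⟨fun _ => 0, fun h' => absurd h' h⟩
    choose g hg using hex
    let y : Fin q → V → V → ℕ := fun i v u => g v u i
    obtain ⟨R, c1, hR, hR1, hcol, hlt, hB⟩ := t_edge V G c (D + 1) q 1 y h64 hrs le_rfl
      (by omega) ⟨hc1, hc3⟩ (fun v => by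
        rw [card_nb]
        exact (hD v).trans (Nat.le_succ _))
      (fun u v h => Nat.lt_succ_of_le (hc2 u v h))
    choose B hB1 hB2 using hB
    set C := cf G R c1 T F hcol.1 with hC
    have hbad : ∀ v u, (G \ R).Adj v u → (c1 v u ∈ F s(v, u) ∨ c1 v u ∈ T u) → u ∈ B v := by
      intro v u h hx
      by_contra hnot
      obtain ⟨α, b, h1, h2, h3, h4⟩ := hB2 v u (mem_nb.2 h) hnot
      obtain ⟨i, hi⟩ := hg v u h.1 (c1 v u) (mem_union.2 hx)
      apply h4 i
      simp only [y]
      rw [hi]
      exact ⟨h2, h3⟩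
    set L : ℝ := Real.log ((D : ℝ) + 1) with hL
    have hL64 : 4.1588 ≤ L := by
      have h1 : Real.log 64 ≤ L := by
        apply Real.log_le_log (by norm_num)
        have : (64 : ℝ) ≤ ((D + 1 : ℕ) : ℝ) := by exact_mod_cast h64
        push_cast at this
        linarith
      have h2 : Real.log 64 = 6 * Real.log 2 := by
        rw [show (64 : ℝ) = 2 ^ 6 by norm_num, Real.log_pow]
        norm_num
      have h3 := Real.log_two_gt_d9
      linarith
    set w := ⌊44 * L + r + 8 * (q : ℝ) + 120 * q * L⌋₊ with hw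
    have hqr : (q : ℝ) = (r : ℝ) + s := by
      rw [hq]
      push_cast
      ring
    have hr0 : (0 : ℝ) ≤ r := Nat.cast_nonneg _
    have hs0 : (0 : ℝ) ≤ s := Nat.cast_nonneg _
    have hw0 : (0 : ℝ) ≤ 44 * L + r + 8 * (q : ℝ) + 120 * q * L := by
      have : 0 ≤ (q : ℝ) * L := by
        rw [hqr]
        nlinarith
      rw [hqr] at this ⊢
      nlinarith
    have hdeg : ∀ v, (C.neighborSet v).ncard ≤ w := by
      intro v
      rw [hw, Nat.le_floor_iff hw0, ← card_nb]
      set Z := (nb (G \ R) v).filter fun u => c1 v u ∈ T v with hZ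
      have hZc : Z.card ≤ r := by
        refine le_trans ?_ (hT v)
        refine card_le_card_of_injOn (fun u => c1 v u) ?_ ?_
        · intro u hu
          exact (mem_filter.1 hu).2
        · intro u hu u' hu' h
          by_contra hne
          exact hcol.2 v u u' (mem_nb.1 (mem_filter.1 hu).1) (mem_nb.1 (mem_filter.1 hu').1) hne h
      have h1 : nb C v ⊆ nb R v ∪ (B v ∪ Z) := by
        intro u hu
        rw [mem_nb] at hu
        simp only [mem_union]
        rcases hu with hu | ⟨hu, h | h | h⟩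
        · exact Or.inl (mem_nb.2 hu)
        · exact Or.inr (Or.inl (hbad v u hu (Or.inl h)))
        · exact Or.inr (Or.inl (hbad v u hu (Or.inr h)))
        · exact Or.inr (Or.inr (mem_filter.2 ⟨mem_nb.2 hu, h⟩))
      have h2 : ((nb C v).card : ℝ) ≤ (nb R v).card + ((B v).card + Z.card) := by
        exact_mod_cast (card_le_card h1).trans ((card_union_le _ _).trans
          (Nat.add_le_add_left (card_union_le _ _) _))
      have h3 := hR1 v
      have h4 := hB1 v
      have h5 : (Z.card : ℝ) ≤ r := by exact_mod_cast hZc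
      push_cast at h3 h4
      rw [← hL] at h3 h4
      linarith
    have hwN : D + 1 + 2 * w + (s + 2 * r) < N := by
      have h1 : (w : ℝ) ≤ 44 * L + r + 8 * (q : ℝ) + 120 * q * L := Nat.floor_le hw0
      have h2 : ((D + 1 + 2 * w + (s + 2 * r) : ℕ) : ℝ) < (N : ℝ) := by
        refine lt_of_lt_of_le ?_ hN
        push_cast
        rw [hqr] at h1
        have h3 : (D : ℝ) + 1 + 2 * w + (s + 2 * r) ≤ D + 1 + (88 * L + 16 * (r + s)
            + 240 * ((r + s) * L) + 2 * r + (s + 2 * r)) := by
          linarith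
        refine lt_of_le_of_lt h3 ?_
        have h4 : L ≤ ((r : ℝ) + s) * L := by nlinarith
        have h5 : 4.1588 * ((r : ℝ) + s) ≤ ((r : ℝ) + s) * L := by nlinarith
        nlinarith
      exact_mod_cast h2
    obtain ⟨f, hf1, hf2⟩ := edge_greedy C w (s + 2 * r) (D + 1) N (allF T F) hdeg
      (fun u v h => by
        refine card_allF hT (hF u v ?_)
        rcases h with h | h
        · exact hR h
        · exact h.1.1) hwN
    let e : Sym2 V → ℕ := fun z => Sym2.lift ⟨c1, hcol.1⟩ z
    have he : ∀ u v, e s(u, v) = c1 u v := fun u v => Sym2.lift_mk _ _ _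
    refine ⟨fun z => if z ∈ C.edgeSet then f z else e z, ?_, ?_⟩
    · intro u v huv
      by_cases h : C.Adj u v
      · simp only [SimpleGraph.mem_edgeSet, if_pos h]
        obtain ⟨-, h3, h4⟩ := hf1 u v h
        rw [mem_allF] at h4
        push Not at h4
        exact ⟨h3, h4.1, h4.2.1⟩
      · simp only [SimpleGraph.mem_edgeSet, if_neg h, he]
        have h1 : (G \ R).Adj u v := by
          rw [SimpleGraph.sdiff_adj]
          exact ⟨huv, fun h' => h (Or.inl h')⟩
        refine ⟨lt_of_lt_of_le (hlt u v h1) (by omega), ?_, ?_⟩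
        · intro h2
          exact h (Or.inr ⟨h1, Or.inl h2⟩)
        · intro h2
          exact h (Or.inr ⟨h1, Or.inr (Or.inr h2)⟩)
    · intro u v v' h1 h2 hne
      have hG : ∀ x y, G.Adj x y → ¬ C.Adj x y → (G \ R).Adj x y := by
        intro x y hxy hnot
        rw [SimpleGraph.sdiff_adj]
        exact ⟨hxy, fun h' => hnot (Or.inl h')⟩
      by_cases g1 : C.Adj u v
      · by_cases g2 : C.Adj u v'
        · simp only [SimpleGraph.mem_edgeSet, if_pos g1, if_pos g2]
          exact hf2 u v v' g1 g2 hne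
        · simp only [SimpleGraph.mem_edgeSet, if_pos g1, if_neg g2, he]
          have h3 := (hf1 u v g1).1
          have h4 := hlt u v' (hG u v' h2 g2)
          omega
      · by_cases g2 : C.Adj u v'
        · simp only [SimpleGraph.mem_edgeSet, if_neg g1, if_pos g2, he]
          have h3 := (hf1 u v' g2).1
          have h4 := hlt u v (hG u v h1 g1)
          omega
        · simp only [SimpleGraph.mem_edgeSet, if_neg g1, if_neg g2, he]
          exact hcol.2 u v v' (hG u v h1 g1) (hG u v' h2 g2) hne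

/-- `forb` including the case without forbidden colours (Vizing's theorem). -/
theorem forb' {V : Type} [Fintype V] (G : SimpleGraph V) (D r s N : ℕ)
    (hD : ∀ v, (G.neighborSet v).ncard ≤ D) (T : V → Finset ℕ) (hT : ∀ v, (T v).card ≤ r)
    (F : Sym2 V → Finset ℕ) (hF : ∀ u v, G.Adj u v → (F s(u, v)).card ≤ s)
    (hN : (D : ℝ) + 1 + 334 * (r + s) * Real.log (D + 1) ≤ N) :
    ∃ f : Sym2 V → ℕ, (∀ u v, G.Adj u v → f s(u, v) < N ∧ f s(u, v) ∉ F s(u, v) ∧
        f s(u, v) ∉ T u) ∧
      ∀ u v v', G.Adj u v → G.Adj u v' → v ≠ v' → f s(u, v) ≠ f s(u, v') := by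
  classical
  rcases Nat.eq_zero_or_pos (r + s) with h0 | hpos
  · have hr : r = 0 := by omega
    have hs : s = 0 := by omega
    subst hr hs
    obtain ⟨c, hc1, hc2, hc3⟩ := Pool.Agent.H238R2.HY.vizing G D (fun v => by
      rw [← SimpleGraph.card_neighborSet_eq_degree, ← Nat.card_eq_fintype_card]
      exact hD v)
    have hDN : D + 1 ≤ N := by
      have : ((D + 1 : ℕ) : ℝ) ≤ N := by
        push_cast at hN ⊢
        linarith
      exact_mod_cast this
    refine ⟨fun z => Sym2.lift ⟨c, hc1⟩ z, ?_, ?_⟩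
    · intro u v h
      simp only [Sym2.lift_mk]
      refine ⟨lt_of_lt_of_le (Nat.lt_succ_of_le (hc2 u v h)) hDN, ?_, ?_⟩
      · rw [Finset.card_eq_zero.1 (Nat.le_zero.1 (hF u v h))]
        exact notMem_empty _
      · rw [Finset.card_eq_zero.1 (Nat.le_zero.1 (hT u))]
        exact notMem_empty _
    · intro u v v' h1 h2 hne
      simp only [Sym2.lift_mk]
      exact hc3 u v v' h1 h2 hne
  · exact forb G D r s N hD T hT F hF hpos hN

end Pool.Agent.X211.LX
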