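import Pool.Agent.W378.KF.Ball
import Pool.Agent.W215.KF.Paths
import Pool.Agent.W305.KF.Mark
import Pool.Agent.W723.KF.Cut
import Pool.Agent.W177.KF.Hoef
import Pool.Agent.W613.KF.Flip
import Pool.Agent.W240.KF.Level
import Pool.Agent.W853.KF.SG
import Pool.Agent.W52.KF.Rec
import Pool.Agent.W372.KF.Phase
import Pool.Agent.W319.KF.Edge

/-!
# The random Kempe flip theorem of the starting library, assembled
-/

set_option autoImplicit false

namespace Pool.Agent.X211.LX

open Pool.Agent.W842.KF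

theorem t_cut : S_CUT :=
  Pool.Agent.W723.KF.t_cut Pool.Agent.W378.KF.t_ball Pool.Agent.W378.KF.t_bmeet
    Pool.Agent.W378.KF.t_grow Pool.Agent.W215.KF.t_paths Pool.Agent.W215.KF.t_cls
    Pool.Agent.W305.KF.t_mark1 Pool.Agent.W305.KF.t_mark2

theorem t_level : S_LEVEL :=
  Pool.Agent.W240.KF.t_level t_cut
    (Pool.Agent.W613.KF.t_flip Pool.Agent.W215.KF.t_cls Pool.Agent.W177.KF.t_hoef)
    Pool.Agent.W215.KF.t_kempe

theorem t_phase : S_PHASE :=
  Pool.Agent.W372.KF.t_phase t_level Pool.Agent.W853.KF.t_sg Pool.Agent.W52.KF.t_rec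

theorem t_edge : S_EDGE := Pool.Agent.W319.KF.t_edge t_phase

end Pool.Agent.X211.LX
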